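import Mathlib
import Pool.Agent.Zk47.BS.LiftEx
import Pool.Agent.Zk94.PT.End

/-!
# Liftable sections of the twists by primes
-/

set_option autoImplicit false
set_option linter.all false

open IsDedekindDomain NumberField Pool.Agent.W620.SC Pool.Agent.TH954

namespace Pool.Agent.Zk94.LP

open Pool.Agent.Y158.GR Pool.Agent.Y157.PS Pool.Agent.Zk94.PT Pool.Agent.Zk12 Pool.Agent.Zk95.BS
open Pool.Agent.Zk95.TD (ex progressions_ex)

section

attribute [-instance] DivisionRing.toRatAlgebra SubfieldClass.instSMulRat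
attribute [local instance 1] DivisionRing.toRatAlgebra

/-- the fixed field of a section is contained in the fixed field of a section which lifts it -/
def liftL {F M N B : Type} [Field F] [Field M] [Field N] [Field B] [Algebra ℚ F] [Algebra F M]
    [Algebra F N] [Algebra ℚ M] [Algebra ℚ N] [Algebra ℚ B] [IsScalarTower ℚ F M]
    [IsScalarTower ℚ F N] (s : GalSection ℚ F M B) (s' : GalSection ℚ F N B) (φ : M →ₐ[F] N)
    (hcomp : ∀ g z, φ (s.s g z) = s'.s g (φ z)) : fixL s →ₐ[ℚ] fixL s' :=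
  { toFun := fun y => ⟨φ (y : M), fun g => by rw [← hcomp, y.2 g]⟩
    map_one' := Subtype.ext (map_one φ)
    map_mul' := fun a b => Subtype.ext (map_mul φ _ _)
    map_zero' := Subtype.ext (map_zero φ)
    map_add' := fun a b => Subtype.ext (map_add φ _ _)
    commutes' := fun r => Subtype.ext (by
      change φ (algebraMap ℚ M r) = algebraMap ℚ N r
      rw [IsScalarTower.algebraMap_apply ℚ F M, IsScalarTower.algebraMap_apply ℚ F N]
      exact φ.commutes _) }

/-- the type of a section which lifts to a section with a place over `ℚ₂` -/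
theorem type_of_lift {d : ℤ} (hT : HasType d)
    {F Ω M N B : Type} [Field F] [Field Ω] [Field M] [Field N] [Field B] [Algebra ℚ F]
    [Algebra F Ω] [Algebra ℚ Ω] [Algebra F M] [Algebra ℚ M] [Algebra F N] [Algebra ℚ N]
    [Algebra ℚ B] [IsScalarTower ℚ F Ω] [IsScalarTower ℚ F M] [IsScalarTower ℚ F N]
    [Algebra.IsAlgebraic F N] [IsAlgClosed Ω] [Algebra.IsAlgebraic F Ω] [IsAlgClosure ℚ B]
    [Algebra.IsAlgebraic ℚ B]
    (x y : F) (U : Set (ValuationSubring F)) (ι : M →ₐ[F] Ω) (φ : M →ₐ[F] N)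
    (hU : ∀ O ∈ U, ∀ c : ℚ, algebraMap ℚ F c ∈ O) (hι : ι.fieldRange = unramified F Ω U)
    (hx : Transcendental ℚ x) (hF : Algebra.IsAlgebraic (IntermediateField.adjoin ℚ {x}) F)
    (hxy : (d : F) * y ^ 2 = ∏ i, (x - (ex i : F)))
    (s : GalSection ℚ F M B) (s' : GalSection ℚ F N B) (hcomp : ∀ g z, φ (s.s g z) = s'.s g (φ z))
    (hgeo : ∀ v : HeightOneSpectrum (𝓞 ℚ), s'.GeometricOver (v.adicCompletion ℚ)
        (AlgebraicClosure (v.adicCompletion ℚ))) :
    ∃ i, Pool.Agent.W623.SecG.At (Pool.Agent.TH213.SEL.ofGal ι hι s) x ex i := by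
  classical
  have hBc : CharZero B := charZero_of_injective_algebraMap (algebraMap ℚ B).injective
  have hBn : Normal ℚ B := IsAlgClosure.normal ℚ B
  have hcv : ∀ v : HeightOneSpectrum (𝓞 ℚ), CharZero (v.adicCompletion ℚ) := fun v =>
    charZero_of_injective_algebraMap (algebraMap ℚ (v.adicCompletion ℚ)).injective
  have hcL : CharZero (fixL s) := charZero_of_injective_algebraMap
    (algebraMap ℚ (fixL s)).injective
  have hcL' : CharZero (fixL s') := charZero_of_injective_algebraMap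
    (algebraMap ℚ (fixL s')).injective
  choose pl hpl using hgeo
  have hp : ∀ v, s'.GivenBy (v.adicCompletion ℚ) (pl v) := fun v => hpl v
  exact hT F Ω M B x y U ι hU hι hx hF hxy s
    (resPlc (liftL s s' φ hcomp : fixL s →+* fixL s') (fun c => (liftL s s' φ hcomp).commutes c)
      (mapPlc (fp ⟨2, Nat.prime_two⟩) (plcL (hp
        ((Rat.HeightOneSpectrum.primesEquiv (R := 𝓞 ℚ)).symm ⟨2, Nat.prime_two⟩)))))

end

/-- **liftable sections** -/
theorem liftable_of_type {d : ℤ} (hT : HasType d) : Pool.Agent.Zk47.BS.Liftable ex d := by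
  classical
  intro F Ω M N B _ _ _ _ _ _ _ _ _ _ _ _ _ _ _ _ _ _ _ x y U ι φ hU hι hroot hx hF hxy s s'
    hcomp hgeo
  have he : Function.Injective ex := by decide
  have hPr := @progressions_ex
  have hcl : IsAlgClosed Ω := IsAlgClosure.isAlgClosed F
  have halg : Algebra.IsAlgebraic F Ω := IsAlgClosure.isAlgebraic
  have : Algebra.IsAlgebraic F M := Algebra.IsAlgebraic.of_injective ι ι.injective
  have hBalg : Algebra.IsAlgebraic ℚ B := IsAlgClosure.isAlgebraic
  have hcF : CharZero F := charZero_of_injective_algebraMap (algebraMap ℚ F).injective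
  obtain ⟨i, hi⟩ := type_of_lift hT x y U ι φ hU hι hx hF hxy s s' hcomp hgeo
  have hE : Function.Injective (fun k => (ex k : ℚ)) := by
    intro a b h
    have h' : (ex a : ℚ) = (ex b : ℚ) := h
    exact he (by exact_mod_cast h')
  obtain ⟨l, z, δ, hδ, hl, hAP⟩ := hPr i
  have hxe : ∀ q : ℚ, x - algebraMap ℚ F q ≠ 0 := by
    intro q h
    apply hx
    rw [sub_eq_zero.1 h]
    exact isAlgebraic_algebraMap q
  have hKu : ∃ j j' : Fin 4, j ≠ j' ∧ ∀ n : ℕ, 0 < n → ∃ (c : ℚ) (w : N), (∀ g, s'.s g w = w) ∧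
      algebraMap F N ((x - algebraMap ℚ F ((fun k => (ex k : ℚ)) (l j))) /
        (x - algebraMap ℚ F ((fun k => (ex k : ℚ)) (l j'))) *
        algebraMap ℚ F (((fun k => (ex k : ℚ)) (l j') - (fun k => (ex k : ℚ)) i) /
          ((fun k => (ex k : ℚ)) (l j) - (fun k => (ex k : ℚ)) i))) =
        algebraMap ℚ N c * w ^ n := by
    refine ⟨0, 1, by decide, fun n hn => ?_⟩
    have hd : ∀ j, (ex (l j) : ℚ) - ex i ≠ 0 := by
      intro j h
      exact hl j (hE (sub_eq_zero.1 h))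
    set f : F := (x - algebraMap ℚ F ((fun k => (ex k : ℚ)) (l 0))) /
        (x - algebraMap ℚ F ((fun k => (ex k : ℚ)) (l 1))) *
        algebraMap ℚ F (((fun k => (ex k : ℚ)) (l 1) - (fun k => (ex k : ℚ)) i) /
          ((fun k => (ex k : ℚ)) (l 0) - (fun k => (ex k : ℚ)) i)) with hf
    have hf0 : f ≠ 0 := mul_ne_zero (div_ne_zero (hxe _) (hxe _))
      ((_root_.map_ne_zero _).2 (div_ne_zero (hd 1) (hd 0)))
    obtain ⟨h, hh⟩ := hroot (algebraMap F M f) n hn
    rw [φ.commutes] at hh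
    have h0 : h ≠ 0 := by
      rintro rfl
      rw [zero_pow hn.ne'] at hh
      exact (_root_.map_ne_zero (algebraMap F N)).2 hf0 hh.symm
    obtain ⟨c, w, hw, hcw⟩ := Pool.Agent.Zk94.BS.kummer_sec s' h0 hn (fun g => by
      rw [hh]
      exact (s'.s g).commutes f)
    exact ⟨c, w, hw, by rw [← hh]; exact hcw⟩
  have hAt : ∀ m m', m ≠ i → m' ≠ i → ∃ γ : M, (∀ g, s.s g γ = γ) ∧
      γ ^ 2 = algebraMap F M ((x - algebraMap ℚ F ((fun k => (ex k : ℚ)) m)) *
        (x - algebraMap ℚ F ((fun k => (ex k : ℚ)) m')) *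
        algebraMap ℚ F (((fun k => (ex k : ℚ)) i - (fun k => (ex k : ℚ)) m) *
          ((fun k => (ex k : ℚ)) i - (fun k => (ex k : ℚ)) m'))) := by
    intro m m' h1 h2
    obtain ⟨γ, h3, h4⟩ := hi m m' h1 h2
    refine ⟨Pool.Agent.TH213.SEL.phi ι hι γ, Pool.Agent.TH213.SEL.fixed_of_ofGal ι hι s h3, ?_⟩
    apply ι.injective
    change ι (Pool.Agent.TH213.SEL.phi ι hι γ ^ 2) = ι (algebraMap F M _)
    rw [map_pow, Pool.Agent.TH213.SEL.e_phi, h4, ι.commutes]
    congr 1
    simp only [map_mul, map_sub, map_intCast]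
    push_cast
    ring
  choose P hP using hgeo
  have h1 := Pool.Agent.Zk47.BS.all_val2 Pool.Agent.Zk90.BS.gp2 Pool.Agent.Zk94.BS.ut s
    (Pool.Agent.Zk12.rootN_unr U hU ι hι s.j) s' φ hcomp P hP hx
    (fun k => (ex k : ℚ)) i hAt l hl (fun j h => hl j (hE h)) z δ hδ hAP hKu
  obtain ⟨O, hO1, hO2⟩ := Pool.Agent.Zk94.BS.cab ⟨x, hx, hF⟩ φ hroot s s' hcomp P hP
    (t := x - algebraMap ℚ F (ex i)) (hxe _) h1
  refine ⟨O, hO2, i, ?_⟩
  rwa [map_intCast] at hO1

end Pool.Agent.Zk94.LP
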