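import Mathlib
import Pool.Agent.Zk94.LP.Lift

/-!
# Liftable sections of the twists by primes: the end
-/

set_option autoImplicit false
set_option linter.all false

open IsDedekindDomain NumberField Pool.Agent.W620.SC Pool.Agent.TH954

namespace Pool.Agent.Zk94.LP

open Pool.Agent.Y158.GR Pool.Agent.Y157.PS Pool.Agent.Zk94.PT
open Pool.Agent.Zk95.TD (ex progressions_ex)

/-- sections which lift to a locally geometric section -/
theorem liftU {d D : ℤ} {r : ℚ} (hdD : (30 : ℚ) ^ 5 * D = d * r ^ 2) (hT : HasType d)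
    (F Ω M N B : Type) [Field F] [Field Ω] [Field M] [Field N] [Field B] [Algebra ℚ F]
    [Algebra F Ω] [Algebra ℚ Ω] [Algebra F M] [Algebra ℚ M] [Algebra F N] [Algebra ℚ N]
    [Algebra ℚ B] [IsScalarTower ℚ F Ω] [IsScalarTower ℚ F M] [IsScalarTower ℚ F N]
    [Algebra.IsAlgebraic F N] [IsAlgClosure F Ω] [IsAlgClosure ℚ B]
    (u y : F) (U : Set (ValuationSubring F)) (ι : M →ₐ[F] Ω) (φ : M →ₐ[F] N)
    (hU : ∀ O ∈ U, ∀ c : ℚ, algebraMap ℚ F c ∈ O) (hι : ι.fieldRange = unramified F Ω U)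
    (hroot : ∀ (z : M) (n : ℕ), 0 < n → ∃ w : N, w ^ n = φ z)
    (hu : Transcendental ℚ u) (hF : Algebra.IsAlgebraic (IntermediateField.adjoin ℚ {u}) F)
    (huy : (D : F) * y ^ 2 = u * (u ^ 2 - 1) * (u ^ 2 - 9))
    (s : GalSection ℚ F M B) (s' : GalSection ℚ F N B)
    (hcomp : ∀ g z, φ (s.s g z) = s'.s g (φ z))
    (hgeo : ∀ v : HeightOneSpectrum (𝓞 ℚ), s'.GeometricOver (v.adicCompletion ℚ)
        (AlgebraicClosure (v.adicCompletion ℚ))) :
    ∃ O : ValuationSubring F, s.ArisesFrom O ∧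
      (u ∉ O ∨ ∃ j : Fin 5, (u - algebraMap ℚ F (fp5 j))⁻¹ ∉ O) := by
  obtain ⟨O, hO, i, hi⟩ := liftable_of_type hT F Ω M N B (30 / (u + 2))
    (algebraMap ℚ F r * y / (u + 2) ^ 3) U ι φ hU hι hroot (x_trans hu)
    (by rw [adj_one hu]; exact hF) (curve_eqn hu hdD huy) s s' hcomp hgeo
  rw [← map_intCast (algebraMap ℚ F)] at hi
  exact ⟨O, hO, val_O hu hO.2.1 hi⟩

end Pool.Agent.Zk94.LP
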